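import Pool.Agent.H159.AJ.Main

/-!
# Powers of arbitrary braids and the Jones polynomial modulo prime powers: automatic sets of parameters

Diagrams (library module `Pool.Agent.H891R2.Jones.Diagram`): `Diagram P` (oriented link diagrams),
`Diagram.fPoly` (the normalised bracket `(-A^{-3})^{w(D)} ⟨D⟩`), `Diagram.IsClosed` (the pieces of the
diagram fit together to closed oriented curves), `Outer m` (the part of an oriented diagram outside a
box through which `m` strands run, with arbitrary directions), `Outer.close` (fills the rest of the box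
with vertical strands).  Words: `Letter m` (the letters `σ_i^{±1}` of the braid group on `m` strands); the
definitions of `Pool.Agent.Y463.SK.Defs`, for words `w`: `powW w n` (the power `w^n`, `n ∈ ℤ`), `permW w` (the
permutation of the strands), `IsPure w` (`permW w = 1`), `dia O w` (the diagram obtained by drawing `w` in
the box of `O` and filling the rest of the box with vertical strands),
`multiW w v n = w_1^{n_1} v_1 w_2^{n_2} v_2 ⋯ w_k^{n_k} v_k`.

Kernels (`Pool.Agent.H159.AJ.Ker`): `setKernel p S`, `S ⊆ ℕ^k`, is the set of all sets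
`{n | p^e n + r ∈ S}` with `e ≥ 0`, `0 ≤ r_i < p^e`, and `arrayKernel p c` is the set of all arrays
`c(p^e n + r, p^e j + s)`, `n ∈ ℕ^k`, `j ∈ ℤ`, with `e ≥ 0` and `0 ≤ r_i, s < p^e`.  The finiteness of the kernel is
the definition of a `p`-automatic set or array (equivalently: a finite automaton decides whether `n ∈ S`,
or computes the entry, from the digits in base `p`).
-/

set_option autoImplicit false

namespace Pool.Agent.Results.MP_42db45_gt.AutomaticParameters

open Finset LaurentPolynomial Pool.Agent.H891R2.Jones Pool.Agent.W639.RB Pool.Agent.Y463.SK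
open Pool.Agent.H159.AJ

/-- **The Jones polynomials of families with several powers of braids, modulo prime powers.**
Let `O` be the outside of a box with `m ≥ 1` strands, let `w_1, …, w_k` and `v_1, …, v_k` be arbitrary braid
words on `m` strands, let `D(n)` be the diagram with the braid `w_1^{n_1} v_1 ⋯ w_k^{n_k} v_k` in the box, and let
`p^a > 1` be a prime power.

1. The coefficients of the normalised brackets of the `D(n)`, `n ∈ ℕ^k`, modulo `p^a` form a `p`-automatic
  array `(n, j) ↦ [A^j] f_{D(n)}`.
2. For a second family `D'(n)` (another box, other braids) and all Laurent polynomials `F`, `G`, `H` the set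
  of all `n ∈ ℕ^k` with `F f_{D(n)} + G f_{D'(n)} + H ≡ 0` modulo `p^a` is `p`-automatic; for instance the set of
  the `n` with `f_{D(n)} ≡ 1`, and the set of the `n` for which the two families have congruent brackets.

Let the braids `w_i^{r_i}` be pure, let `s ∈ ℤ^k`, and put `E(q) = D(n)` with `n_i = r_i q_i + s_i`, `q ∈ ℤ^k`.

3. If the outside closes up and the permutation of the braid of `E(0)` preserves the directions of the
  strands, all `E(q)` are diagrams of oriented links.
4. *Interpolation:* if `q ≡ q'` modulo `p^e` and `e ≥ a - 1`, then `f_{E(q)} ≡ f_{E(q')}` modulo the ideal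
  generated by `p^a` and `(A + 1)^N`, `N = p^(e + 1 - a) - m!`.
5. *Gap:* for every Laurent polynomial `F`, for instance `F = 1`, either there is a coset `x + p^e ℤ^k` with
  `f_{E(q)} ≡ F` modulo `p^a` for all its elements `q`, or for some `δ > 0` this congruence holds for at most
  `O(X^(k - δ))` of the `X^k` vectors `q` with `0 ≤ q_i < X`. -/
theorem result (m k : ℕ) (hm : 0 < m) (O : Outer m) (w v : Fin k → List (Letter m)) (p a : ℕ)
    (hp : p.Prime) (ha : 0 < a) :
    (arrayKernel p (fun (n : Fin k → ℕ) (j : ℤ) =>
      (((dia O (multiW w v (fun i => (n i : ℤ)))).fPoly.coeff j : ℤ) : ZMod (p ^ a)))).Finite ∧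
    (∀ (m' : ℕ) (O' : Outer m') (w' v' : Fin k → List (Letter m')), 0 < m' →
      ∀ F G H : ℤ[T;T⁻¹], (setKernel p {n : Fin k → ℕ | (p : ℤ[T;T⁻¹]) ^ a ∣
        F * (dia O (multiW w v (fun i => (n i : ℤ)))).fPoly +
          G * (dia O' (multiW w' v' (fun i => (n i : ℤ)))).fPoly + H}).Finite) ∧
    (∀ (r : Fin k → ℕ) (s : Fin k → ℤ), (∀ i, IsPure (powW (w i) (r i))) →
      (O.close.IsClosed → (∀ j, O.up (permW (multiW w v s) j) = O.up j) →
        ∀ q : Fin k → ℤ, (dia O (multiW w v (fun i => r i * q i + s i))).IsClosed) ∧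
      (∀ (e : ℕ) (q q' : Fin k → ℤ), a ≤ e + 1 → (∀ i, (p : ℤ) ^ e ∣ q' i - q i) →
        ∃ g h : ℤ[T;T⁻¹], (dia O (multiW w v (fun i => r i * q' i + s i))).fPoly -
          (dia O (multiW w v (fun i => r i * q i + s i))).fPoly =
            (p : ℤ[T;T⁻¹]) ^ a * g + (T 1 + 1) ^ (p ^ (e + 1 - a) - m.factorial) * h) ∧
      (∀ F : ℤ[T;T⁻¹],
        (∃ (e : ℕ) (x : Fin k → ℤ), ∀ q : Fin k → ℤ, (p : ℤ[T;T⁻¹]) ^ a ∣
          (dia O (multiW w v (fun i => r i * (x i + p ^ e * q i) + s i))).fPoly - F) ∨
        ∃ C δ : ℝ, 0 < δ ∧ ∀ X : ℕ, 1 ≤ X →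
          ({q : Fin k → ℕ | (∀ i, q i < X) ∧ (p : ℤ[T;T⁻¹]) ^ a ∣
            (dia O (multiW w v (fun i => r i * (q i : ℤ) + s i))).fPoly - F}.ncard : ℝ) ≤
              C * (X : ℝ) ^ ((k : ℝ) - δ))) := by
  classical
  refine ⟨?_, ?_, ?_⟩
  · choose Q hQ hQ' using rec_dir hm O w v
    have h := array_finite (p := p) (a := a) hp ha (Q := fun i => (Q i).map (red p a))
      (fun i => (hQ i).map _) (f := fam p a O w v) (fun i => hQ' i p a)
    convert h using 4 with n j
    exact (red_coeff p a _ _).symm
  · intro m' O' w' v' hm' F G H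
    choose Q hQ hQ' using
      rec_comb hm O w v hm' O' w' v' p a (red p a F) (red p a G) (red p a H)
    have h := zero_finite (p := p) (a := a) hp ha hQ hQ'
    convert h using 3
    ext n
    rw [← red_eq_zero_iff, map_add, map_add, map_mul, map_mul]
    rfl
  · intro r s hr
    set W : Fin k → List (Letter m) := fun i => powW (w i) (r i) with hW
    set V : Fin k → List (Letter m) := fun i => powW (w i) (s i) ++ v i with hV
    have hE : ∀ q : Fin k → ℤ, (dia O (multiW w v (fun i => r i * q i + s i))).fPoly =
        (dia O (multiW W V q)).fPoly := by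
      intro q
      rw [dia_fPoly, dia_fPoly]
      exact ff_congr hm O (toN_lt _) (toN_lt _) (multi_eqv w v r s q)
    refine ⟨fun hO hv q => multi_general_closed O w v r hr s hO hv q, ?_, ?_⟩
    · intro e q q' hae hq
      choose t ht using hq
      have h1 := interp hp hae hm O W V hr q t
      have h2 : (fun i => q i + (p : ℤ) ^ e * t i) = q' := by
        funext i
        rw [← ht i]
        ring
      rw [h2, ← red_pi, ← map_pow, ← map_sub] at h1
      rw [hE, hE]
      obtain ⟨y, hy⟩ := h1
      obtain ⟨h, rfl⟩ : ∃ h, red p a h = y := by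
        refine ⟨AddMonoidAlgebra.ofCoeff (y.coeff.mapRange (fun z : ZMod (p ^ a) => (z.cast : ℤ)) (by simp)), ?_⟩
        ext j
        rw [red_coeff]
        show (((y.coeff j).cast : ℤ) : ZMod (p ^ a)) = y.coeff j
        exact ZMod.intCast_zmod_cast _
      rw [← map_mul, ← sub_eq_zero, ← map_sub, red_eq_zero_iff] at hy
      obtain ⟨g, hg⟩ := hy
      exact ⟨g, h, by rw [← hg]; ring⟩
    · intro F
      set E : Set (Fin k → ℕ) := {n | red p a (dia O (multiW W V (fun i => (n i : ℤ)))).fPoly -
        red p a F = 0} with hEdef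
      choose Q hQ hQ' using
        rec_comb hm O W V hm O W V p a 1 0 (- red p a F)
      have hfin : (setKernel p E).Finite := by
        have h := zero_finite (p := p) (a := a) hp ha hQ hQ'
        convert h using 3
        ext n
        rw [one_mul, zero_mul, add_zero, ← sub_eq_add_neg]
        rfl
      have hclosed : ∀ n, n ∉ E → ∃ e : ℕ, ∀ q : Fin k → ℕ, n + (fun i => p ^ e * q i) ∉ E := by
        intro n hn
        have h1 : red p a (dia O (multiW W V (fun i => (n i : ℤ)))).fPoly ≠ red p a F := by
          intro h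
          apply hn
          show _ - _ = _
          rw [h, sub_self]
        obtain ⟨e, he⟩ := closed hp a hm O W V hr (red p a F) _ h1
        refine ⟨e, fun q hq => he (fun i => (q i : ℤ)) ?_⟩
        have h2 : red p a (dia O (multiW W V
            (fun i => (((n + (fun i => p ^ e * q i) : Fin k → ℕ) i : ℕ) : ℤ)))).fPoly - red p a F = 0 := hq
        have h3 : (fun i => (((n + (fun i => p ^ e * q i) : Fin k → ℕ) i : ℕ) : ℤ)) =
            (fun i => (n i : ℤ) + (p : ℤ) ^ e * (q i : ℤ)) := by
          funext i
          rw [Pi.add_apply]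
          push_cast
          rfl
        rw [h3] at h2
        exact sub_eq_zero.1 h2
      rcases gap hp.two_le hfin hclosed with ⟨e, x, hx⟩ | h
      · left
        refine ⟨e, fun i => (x i : ℤ), fun q => ?_⟩
        rw [hE, ← red_eq_zero_iff, map_sub, sub_eq_zero]
        apply all_of_nat hp a hm O W V hr (red p a F) (fun i => (x i : ℤ)) e
        intro q
        have h2 : red p a (dia O (multiW W V
            (fun i => (((x + (fun i => p ^ e * q i) : Fin k → ℕ) i : ℕ) : ℤ)))).fPoly - red p a F = 0 :=
          hx q
        have h3 : (fun i => (((x + (fun i => p ^ e * q i) : Fin k → ℕ) i : ℕ) : ℤ)) =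
            (fun i => (x i : ℤ) + (p : ℤ) ^ e * (q i : ℤ)) := by
          funext i
          rw [Pi.add_apply]
          push_cast
          rfl
        rw [h3] at h2
        exact sub_eq_zero.1 h2
      · right
        obtain ⟨C, δ, hδ, h⟩ := h
        refine ⟨C, δ, hδ, fun X hX => ?_⟩
        have h1 := h X hX
        have h2 : {q : Fin k → ℕ | (∀ i, q i < X) ∧ (p : ℤ[T;T⁻¹]) ^ a ∣
            (dia O (multiW w v (fun i => r i * (q i : ℤ) + s i))).fPoly - F} =
            {n : Fin k → ℕ | (∀ i, n i < X) ∧ n ∈ E} := by
          ext q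
          have h3 : (p : ℤ[T;T⁻¹]) ^ a ∣
              (dia O (multiW w v (fun i => r i * (q i : ℤ) + s i))).fPoly - F ↔ q ∈ E := by
            rw [hE, ← red_eq_zero_iff, map_sub]
            rfl
          rw [Set.mem_ofPred_eq, Set.mem_ofPred_eq, h3]
        rw [h2]
        exact h1

end Pool.Agent.Results.MP_42db45_gt.AutomaticParameters
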