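import Pool.Agent.H756.RP.Fin

/-!
# Closed polygons with random vertices: the normalised bracket takes no value often

Library (`Pool.Graph.R_seed8.H832R2.JR.Defs`, `Pool.Graph.R_seed8.H832R3.VJ.Defs`): a knot diagram with
`N` crossings is given by a Gauss word `G : GaussWord N` (the place `G (c, b)` of each of the two passages
`(c, false)`, `(c, true)` of the crossing `c` when one travels once along the knot) and the signs
`w : Fin N → Bool` of the crossings; `fPoly G w` is its normalised Kauffman bracket `f`, a Laurent
polynomial in `A = T 1`; `moment 2 F = ∑ k ^ 2 a_k` for `F = ∑ a_k A ^ k`.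

New (`Pool.Agent.H756.RP`):

* `Pt = ℝ × ℝ × ℝ`; a closed polygon is given by its vertices `p : Fin n → Pt`; `nx i` is the vertex after
  the vertex `i`, `ept p i s` the point with the parameter `s` on the edge from `i` to `nx i`, `det p i j`
  the determinant of the projections `(x, y, z) ↦ (x, y)` of the edges `i` and `j`;
* `Describes p G w`: the projection of the polygon `p` is a knot diagram and `G`, `w` are its Gauss word and
  signs: there are edges `a x` and parameters `t x` for the passages `x` such that the two passages of a
  crossing have the same projection, any two different points of the polygon with the same projection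
  are the two passages of a crossing, all passages are interior points of edges, `G` numbers them in their
  order on the polygon, and at every crossing the two edges have different directions and heights and `w`
  is the usual sign.

Proof.  (1) The height of a vertex `i` is random; increase it by a small `δ`.  If the edge from `i` passes
closely below exactly one edge `k` and all other crossings of the two edges at `i` are not close, this
changes exactly one crossing.  (2) First and second moments: with probability `1 - O(n ^ (-1/5))` there are
at least `c n ^ (4/5)` such vertices `i` in each of two blocks of vertices, whose crossings with edges of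
two further blocks are interlaced on the knot.  (3) The uniform part of the law is preserved by the
translation of the heights by `δ` modulo `1`; so one can condition on everything except the choice
`height` or `height + δ` for these vertices.  (4) As a function of these choices the second moment of `f` is
a polynomial of degree `2` whose mixed coefficients for the two blocks do not vanish, and the
square-root law of the library bounds the number of choices with a given value.
-/

set_option autoImplicit false

namespace Pool.Agent.Results.MP_42db45_gt.RandomPolygons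

open MeasureTheory LaurentPolynomial
open scoped ENNReal
open Pool.Agent.H832R2.JR (GaussWord fPoly)
open Pool.Agent.H832R3.VJ (moment)
open Pool.Agent.H756.RP (Pt Describes)

/-- Let `ρ` be a probability density in space such that `ρ (x, y, z) ≤ h (x, y)` for an integrable
function `h` and `ρ ≥ b > 0` on a nonempty open set.  Let `p` be a closed polygon with `n ≥ 3` independent
vertices with the density `ρ`.  Almost surely the projection of `p` is a knot diagram.  There is a
constant `C` such that for all `n ≥ 3`

* for every integer `c` and every natural number `R` the probability that the normalised bracket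
  `f = ∑ a_k A ^ k` of the diagram satisfies `|∑ k ^ 2 a_k - c| ≤ R` is at most `C (R + 1) n ^ (-1/5)`;
  so `∑ k ^ 2 a_k` tends to infinity in probability;
* for every Laurent polynomial `F` the probability of `f = F` is at most `C n ^ (-1/5)`; in particular
  this holds for `f = 1`. -/
theorem result (ρ : Pt → ℝ≥0∞) (hρ : Measurable ρ) (h1 : ∫⁻ q, ρ q = 1) (h : ℝ × ℝ → ℝ≥0∞)
    (hh : Measurable h) (hfin : ∫⁻ q, h q ≠ ∞) (hle : ∀ q, ρ q ≤ h (q.1, q.2.1)) (U : Set Pt)
    (hU : IsOpen U) (hne : U.Nonempty) (b : ℝ≥0∞) (hb : b ≠ 0) (hbU : ∀ q ∈ U, b ≤ ρ q) :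
    ∃ C : ℝ, 0 < C ∧ ∀ n : ℕ, 3 ≤ n →
      (∀ᵐ p ∂(Measure.pi fun _ : Fin n => (volume : Measure Pt).withDensity ρ),
        ∃ (N : ℕ) (G : GaussWord N) (w : Fin N → Bool), Describes p G w) ∧
      (∀ (c : ℤ) (R : ℕ), (Measure.pi fun _ : Fin n => (volume : Measure Pt).withDensity ρ)
        {p | ∃ (N : ℕ) (G : GaussWord N) (w : Fin N → Bool), Describes p G w ∧
          |moment 2 (fPoly G w) - c| ≤ R} ≤
            ENNReal.ofReal (C * (R + 1) * (n : ℝ) ^ (-(1 / 5) : ℝ))) ∧
      ∀ F : ℤ[T;T⁻¹], (Measure.pi fun _ : Fin n => (volume : Measure Pt).withDensity ρ)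
        {p | ∃ (N : ℕ) (G : GaussWord N) (w : Fin N → Bool), Describes p G w ∧
          fPoly G w = F} ≤ ENNReal.ofReal (C * (n : ℝ) ^ (-(1 / 5) : ℝ)) := by
  obtain ⟨C, hC, hf⟩ := Pool.Agent.H756.RP.final ρ hρ h1 h hh hfin hle U hU hne b hb hbU
  refine ⟨2 * C, by positivity, fun n hn => ?_⟩
  obtain ⟨g1, g2⟩ := hf n hn
  have hx : (0 : ℝ) ≤ (n : ℝ) ^ (-(1 / 5) : ℝ) := Real.rpow_nonneg (Nat.cast_nonneg n) _
  refine ⟨g1, fun c R => ?_, fun F => ?_⟩
  · refine le_trans (measure_mono (t := ⋃ j ∈ Finset.Icc (c - R) (c + R),
      {p : Fin n → Pt | ∃ (N : ℕ) (G : GaussWord N) (w : Fin N → Bool), Describes p G w ∧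
        moment 2 (fPoly G w) = j}) ?_) ?_
    · rintro p ⟨N, G, w, hd, hF⟩
      have h3 := abs_le.1 hF
      refine Set.mem_biUnion (x := moment 2 (fPoly G w)) ?_ ⟨N, G, w, hd, rfl⟩
      simp only [Finset.coe_Icc, Set.mem_Icc]
      constructor <;> omega
    · refine le_trans (measure_biUnion_finset_le _ _) ?_
      refine le_trans (Finset.sum_le_sum fun j _ => g2 j) ?_
      rw [Finset.sum_const, Int.card_Icc]
      have h4 : (c + (R : ℤ) + 1 - (c - R)).toNat = 2 * R + 1 := by omega
      rw [h4, nsmul_eq_mul, ← ENNReal.ofReal_natCast, ← ENNReal.ofReal_mul (Nat.cast_nonneg _)]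
      refine ENNReal.ofReal_le_ofReal ?_
      push_cast
      nlinarith [mul_nonneg hC.le hx]
  · refine le_trans (measure_mono (t := {p : Fin n → Pt | ∃ (N : ℕ) (G : GaussWord N)
      (w : Fin N → Bool), Describes p G w ∧ moment 2 (fPoly G w) = moment 2 F}) ?_) ?_
    · rintro p ⟨N, G, w, hd, hF⟩
      exact ⟨N, G, w, hd, by rw [hF]⟩
    · refine le_trans (g2 (moment 2 F)) (ENNReal.ofReal_le_ofReal ?_)
      nlinarith [mul_nonneg hC.le hx]

end Pool.Agent.Results.MP_42db45_gt.RandomPolygons
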