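import Pool.Agent.H756.TD.Main
import Pool.Agent.H756.TD.Sparse

/-!
# Changing sparse crossings of an alternating diagram: the exact span of the Jones polynomial

Library (`Pool.Graph.R_seed8.H891R2.MT.Defs`, `.DS.Defs`, `.Jones.Diagram`,
`Pool.Graph.R_pool_sql_team_seeded_63374d34.N569.OD.Defs`):

* `Ribbon k`: ribbon graphs with `k` edges (`Fin k`), an edge `e` has the two darts `(e, false)` and
  `(e, true)`, the vertices (`Vert Γ`) are the cycles of `Γ.rot`, `vtx Γ d` is the vertex of the dart `d`,
  `ends Γ e` the unordered pair of the ends of `e`; `Γ.Planar`: connected and planar;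
* `Γ.link (sg R)`: the link diagram with the Tait (checkerboard) graph `Γ` and one crossing at every
  edge, of the kind `-1` for the edges in `R` and `1` for the others.  For `R = ∅` it is the
  alternating diagram of `Γ`; so `Γ.link (sg R)` is the alternating diagram with the crossings in `R`
  changed, and every connected link diagram with at least one crossing is of this form;
* `Orients D U`: `D` is the unoriented diagram `U` with directions; `D.writhe`; `D.fPoly`: the
  normalised Kauffman bracket `f`; `stateGraph Γ univ`: the dual graph of `Γ` (the other Tait graph);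
* `EvenSet G X`: every vertex of `G` has even degree in `X` (`X` is an edge-disjoint union of cycles).

New (`Pool.Agent.H756.TD`):

* `TDom G R` (triangular domination): every nonempty even set of edges of `G` has at least two more
  edges outside `R` than in `R`, or exactly one edge in `R` and two outside `R`;
* `FarApart G R`: `G` has no loops, no edge is parallel to an edge in `R`, and different edges in `R` have
  no common end and no edge joins an end of one of them to an end of the other;
* `kap G R x`: the number of the vertices which are joined to both ends of `x` by edges outside `R`.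

Proof.  The state sum is arranged in blocks, one for every set `F` of edges outside `R`.  The degree of
a block is controlled by the rank of `F ∪ J`, where `J` are the edges of `R` which are not bridges of
`F ∪ R`, and `rank (F ∪ J) ≥ 2 |J|`: contract a triangle for every edge of `J` for which there is one and
count the regions of the rest.  Equality holds exactly for the sets `F` which consist, for every `x ∈ J`, of
two nonempty sets of parallel edges which form triangles with `x`; the sum over them is the product.
-/

set_option autoImplicit false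

namespace Pool.Agent.Results.MP_42db45_gt.TriangularDomination

open Finset LaurentPolynomial Pool.Agent.H891R2.Jones Pool.Agent.H891R2.MT Pool.Agent.H891R2.DS
open Pool.Agent.H756.TD (TDom FarApart kap)

/-- Let `D` be the alternating link diagram with the Tait graph `Γ` and `k > 0` crossings in which the
crossings in `R` have been changed, `Γ'` the dual Tait graph, `v`, `v'` their numbers of vertices and
`w` the writhe of `D`.

(1) If `TDom Γ R`, then `f_D` has no terms below the degree `6 |R| - k - 2 v + 2 - 3 w`, and the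
coefficient in this degree is `∏_{x ∈ R} (1 - κ(x))` up to sign, `κ = kap Γ R`.

(2) If `TDom Γ' R`, then `f_D` has no terms above the degree `k + 2 v' - 2 - 6 |R| - 3 w`, and the
coefficient in this degree is `∏_{x ∈ R} (1 - κ'(x))` up to sign, `κ' = kap Γ' R`.

(3) The distance of these two degrees is `4 (k - 3 |R|)`, and `4 |R| ≤ k` if both conditions hold.  So then
the span of the Jones polynomial is at most `k - 3 |R|`, with equality if and only if no `κ(x)` and no
`κ'(x)`, `x ∈ R`, is `1`; and in this case `f_D` is not of the form `± A^n`, in particular `f_D ≠ 1`.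

(4) If one of the conditions holds and the corresponding product has modulus at least `2`, then `f_D`
is not of the form `± A^n`, in particular `f_D ≠ 1`.

(5) `FarApart` implies `TDom`.  So if crossings of a reduced alternating diagram are changed which are far
apart from each other in both Tait graphs and at no bigon, then `4 |R| ≤ k`, and if no changed crossing has
`κ = 1` in one of the two Tait graphs, then the span of the Jones polynomial is `k - 3 |R|` and
`f_D ≠ ± A^n`. -/
theorem result {k : ℕ} (Γ : Ribbon k) (hΓ : Γ.Planar) (hk : 0 < k) (R : Finset (Fin k))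
    (D : Diagram (Ribbon.Pt (sg R))) (hD : Orients D (Γ.link (sg R))) :
    (TDom Γ R →
      (∀ j, D.fPoly.coeff j ≠ 0 → 6 * R.card - k - 2 * Γ.verts + 2 - 3 * D.writhe ≤ j) ∧
      |D.fPoly.coeff (6 * R.card - k - 2 * Γ.verts + 2 - 3 * D.writhe)| =
        ∏ x ∈ R, |1 - (kap Γ R x : ℤ)|) ∧
    (TDom (stateGraph Γ univ) R →
      (∀ j, D.fPoly.coeff j ≠ 0 →
        j ≤ k + 2 * (stateGraph Γ univ).verts - 2 - 6 * R.card - 3 * D.writhe) ∧
      |D.fPoly.coeff (k + 2 * (stateGraph Γ univ).verts - 2 - 6 * R.card - 3 * D.writhe)| =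
        ∏ x ∈ R, |1 - (kap (stateGraph Γ univ) R x : ℤ)|) ∧
    ((k + 2 * (stateGraph Γ univ).verts - 2 - 6 * R.card - 3 * D.writhe) -
        (6 * R.card - k - 2 * Γ.verts + 2 - 3 * D.writhe) = 4 * ((k : ℤ) - 3 * R.card)) ∧
    (TDom Γ R → TDom (stateGraph Γ univ) R → 4 * R.card ≤ k) ∧
    (TDom Γ R → TDom (stateGraph Γ univ) R →
      (∀ x ∈ R, kap Γ R x ≠ 1 ∧ kap (stateGraph Γ univ) R x ≠ 1) →
      D.fPoly ≠ 1 ∧ ∀ n : ℤ, D.fPoly ≠ T n ∧ D.fPoly ≠ -T n) ∧
    (((TDom Γ R ∧ 2 ≤ ∏ x ∈ R, |1 - (kap Γ R x : ℤ)|) ∨
      (TDom (stateGraph Γ univ) R ∧ 2 ≤ ∏ x ∈ R, |1 - (kap (stateGraph Γ univ) R x : ℤ)|)) →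
      D.fPoly ≠ 1 ∧ ∀ n : ℤ, D.fPoly ≠ T n ∧ D.fPoly ≠ -T n) ∧
    (FarApart Γ R → TDom Γ R) ∧
    (FarApart (stateGraph Γ univ) R → TDom (stateGraph Γ univ) R) ∧
    (FarApart Γ R → FarApart (stateGraph Γ univ) R → 4 * R.card ≤ k ∧
      ((∀ x ∈ R, kap Γ R x ≠ 1 ∧ kap (stateGraph Γ univ) R x ≠ 1) →
        D.fPoly.coeff (6 * R.card - k - 2 * Γ.verts + 2 - 3 * D.writhe) ≠ 0 ∧
        D.fPoly.coeff (6 * R.card - k - 2 * Γ.verts + 2 - 3 * D.writhe +
          4 * ((k : ℤ) - 3 * R.card)) ≠ 0 ∧
        D.fPoly ≠ 1 ∧ ∀ n : ℤ, D.fPoly ≠ T n ∧ D.fPoly ≠ -T n)) := by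
  obtain ⟨h1, h2, h3, h4, h5, h6⟩ := Pool.Agent.H756.TD.main Γ hΓ hk R D hD
  have g5 : TDom Γ R → TDom (stateGraph Γ univ) R →
      (∀ x ∈ R, kap Γ R x ≠ 1 ∧ kap (stateGraph Γ univ) R x ≠ 1) →
      D.fPoly ≠ 1 ∧ ∀ n : ℤ, D.fPoly ≠ T n ∧ D.fPoly ≠ -T n := by
    intro a b c
    have h := h5 a b c
    exact ⟨by rw [← T_zero]; exact (h 0).1, h⟩
  refine ⟨h1, h2, h3, h4, g5, ?_, fun h => h.tdom, fun h => h.tdom, ?_⟩
  · intro a
    have h := h6 a
    exact ⟨by rw [← T_zero]; exact (h 0).1, h⟩
  · intro a b
    refine ⟨h4 a.tdom b.tdom, fun c => ⟨?_, ?_, g5 a.tdom b.tdom c⟩⟩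
    · have h := (h1 a.tdom).2
      intro h0
      change D.fPoly.coeff (Pool.Agent.H756.TD.lo Γ R.card D.writhe) = 0 at h0
      rw [h0, abs_zero] at h
      refine absurd h.symm (Finset.prod_ne_zero_iff.2 fun x hx => ?_)
      have := (c x hx).1
      rw [abs_ne_zero]
      omega
    · have h := (h2 b.tdom).2
      have e3 := sub_eq_iff_eq_add'.1 h3
      change D.fPoly.coeff (Pool.Agent.H756.TD.lo Γ R.card D.writhe +
        4 * ((k : ℤ) - 3 * R.card)) ≠ 0
      rw [← e3]
      intro h0
      rw [h0, abs_zero] at h
      refine absurd h.symm (Finset.prod_ne_zero_iff.2 fun x hx => ?_)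
      have := (c x hx).2
      rw [abs_ne_zero]
      omega

end Pool.Agent.Results.MP_42db45_gt.TriangularDomination
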