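import Pool.Agent.H360.JK.Main

/-!
# Knots whose Jones polynomial is congruent to `1` modulo `(30 (1 - t^N))^k`

Library definitions used (starting library `Pool.Agent.H891R2.Jones.Diagram`, `Pool.Agent.W639.RB.Defs`,
`Pool.Agent.Y463.SK.Defs`): `Diagram.fPoly` (the normalised bracket `(-A^{-3})^{w(D)} ⟨D⟩`, `A = T 1`; it
is the Jones polynomial in `t = A^{-4} = T (-4)`), `Diagram.IsClosed` (the pieces of the diagram fit
together to closed oriented curves), `Outer m` (the part of an oriented diagram outside a box through
which `m` strands run, with arbitrary directions), `Letter m = Bool × Fin (m - 1)` (the letters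
`σ_i^{±1}`, `0 ≤ i < m - 1`; `(true, i)` is `σ_i`), `dia O w` (the diagram with the braid word `w` in
the box of `O`), `braidClosure m` (the outside of the box for the usual closure of braids), `permW`
(the permutation of a braid word), `IsPure` (the permutation is trivial).

The proof: three explicit positive words of lengths 24, 72 and 240 are checked by the kernel to be
scalar modulo 2, 3 and 5 in the reduced Burau representation of the braid group on four strands; their
commutators with `σ_0² σ_2⁻²` are `1` modulo 2, 3, 5 in the Temperley–Lieb algebra; iterated commutators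
of these and of twists of two and three strands are `1` modulo the powers of `30 (1 - t^N)`; their
closures (after multiplication by `σ_0 σ_1 σ_2`) are told apart by the 7-adic valuation of the
Burau trace at `A = 1/7`.
-/

set_option autoImplicit false

namespace Pool.Agent.Results.MP_42db45_gt.UnknotModuloThirty

open LaurentPolynomial Pool.Agent.H891R2.Jones Pool.Agent.W639.RB Pool.Agent.Y463.SK

/-- Put `t = T (-4)`.  For all `N ≥ 1` and `k` there are pure `4`-braid words `u 0, u 1, u 2, …` such
that

* inserting `u i` at any place of a braid word drawn in a box of any oriented link diagram (with any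
  directions of the four strands) does not change the normalised bracket modulo
  `(30 (1 - t^N))^k`;
* the closures of the `4`-braids `σ_0 σ_1 σ_2 u i` are knots (the permutation has a single cycle) and
  their normalised brackets are congruent to `1` modulo `(30 (1 - t^N))^k`;
* these normalised brackets are pairwise different. -/
theorem result (N k : ℕ) (hN : 1 ≤ N) : ∃ u : ℕ → List (Letter 4),
    (∀ i, IsPure (u i)) ∧
    (∀ i (O : Outer 4) (v w : List (Letter 4)),
      (30 * (1 - T (-4) ^ N) : ℤ[T;T⁻¹]) ^ k ∣
        (dia O (v ++ u i ++ w)).fPoly - (dia O (v ++ w)).fPoly) ∧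
    (∀ i, (dia (braidClosure 4) ([(true, 0), (true, 1), (true, 2)] ++ u i)).IsClosed ∧
      (∀ x y, (permW ([(true, 0), (true, 1), (true, 2)] ++ u i)).SameCycle x y) ∧
      (30 * (1 - T (-4) ^ N) : ℤ[T;T⁻¹]) ^ k ∣
        (dia (braidClosure 4) ([(true, 0), (true, 1), (true, 2)] ++ u i)).fPoly - 1) ∧
    Function.Injective
      (fun i => (dia (braidClosure 4) ([(true, 0), (true, 1), (true, 2)] ++ u i)).fPoly) :=
  Pool.Agent.H360.JK.main N k hN

end Pool.Agent.Results.MP_42db45_gt.UnknotModuloThirty
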